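import Mathlib

/-!
# Topological subdivisions of a simplex and relative h-vectors (MP_c2297e_co)

A finite simplicial complex on the vertex set `Fin n` is given by its faces (finite subsets of
`Fin n`; the empty face included). The simplex `2^V` has `V = Fin d`.
-/

set_option autoImplicit false

namespace Pool.Agent.TSI

open Finset Polynomial

noncomputable section

variable {d n : ℕ}

/-- `Γ` is a simplicial complex: it contains the empty face and all subsets of its faces. -/
def IsComplex (Γ : Finset (Finset (Fin n))) : Prop :=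
  ∅ ∈ Γ ∧ ∀ G ∈ Γ, ∀ H ⊆ G, H ∈ Γ

/-- The geometric realization: the points with nonnegative coordinates of sum `1` (barycentric
coordinates) whose support is contained in a face. -/
def Realization (Γ : Finset (Finset (Fin n))) : Set (Fin n → ℝ) :=
  {x | (∀ j, 0 ≤ x j) ∧ ∑ j, x j = 1 ∧ ∃ G ∈ Γ, ∀ j, x j ≠ 0 → j ∈ G}

/-- `Γ` is a ball of dimension `m` whose interior faces are the faces in `I`: there is a
homeomorphism `φ` from the geometric realization to the closed unit ball of `ℝ^m` such that a
nonempty face `G` belongs to `I` if and only if `φ` maps the relative interior of `G` (the points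
with support exactly `G`) into the open unit ball. -/
def IsBall (m : ℕ) (Γ : Finset (Finset (Fin n))) (I : Finset (Fin n) → Prop) : Prop :=
  ∃ φ : Realization Γ ≃ₜ Metric.closedBall (0 : EuclideanSpace ℝ (Fin m)) 1,
    ∀ G ∈ Γ, G.Nonempty →
      (I G ↔ ∀ y : Realization Γ, (∀ j, 0 < (y : Fin n → ℝ) j ↔ j ∈ G) →
        ‖(φ y : EuclideanSpace ℝ (Fin m))‖ < 1)

/-- The faces of `Γ` whose carrier (the value of `σ`) is contained in `W`. -/
def restr (Γ : Finset (Finset (Fin n))) (σ : Finset (Fin n) → Finset (Fin d))
    (W : Finset (Fin d)) : Finset (Finset (Fin n)) :=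
  Γ.filter (fun G => σ G ⊆ W)

/-- `(Γ, σ)` is a topological subdivision of the simplex `2^V`, `V = Fin d`: `Γ` is a simplicial
complex, and for every `W ⊆ V` the faces with carrier in `W` form a subcomplex which is a ball of
dimension `|W| - 1`, and the interior faces of this ball are those with carrier `W` (for `W = ∅`
the ball is the complex `{∅}`, with the interior face `∅`). -/
structure IsTopSubdivision (Γ : Finset (Finset (Fin n)))
    (σ : Finset (Fin n) → Finset (Fin d)) : Prop where
  isComplex : IsComplex Γ
  restr_isComplex : ∀ W : Finset (Fin d), IsComplex (restr Γ σ W)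
  carrier_empty : ∀ G ∈ Γ, (σ G = ∅ ↔ G = ∅)
  isBall : ∀ W : Finset (Fin d), W.Nonempty →
    IsBall (W.card - 1) (restr Γ σ W) (fun G => σ G = W)

/-- The complex `Δ` generated by the codimension-one faces `V \ {v}`, `v ∈ S`, of `2^V`. -/
def facetComplex (S : Finset (Fin d)) : Finset (Finset (Fin d)) :=
  univ.filter (fun W => ∃ v ∈ S, W ⊆ univ \ {v})

/-- The relative complex `Γ/Γ_Δ`: the faces of `Γ` with carrier not in `Δ`. -/
def relComplex (Γ : Finset (Finset (Fin n))) (σ : Finset (Fin n) → Finset (Fin d))
    (Δ : Finset (Finset (Fin d))) : Finset (Finset (Fin n)) :=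
  Γ.filter (fun G => σ G ∉ Δ)

/-- `h_i` of a relative complex `R` (`i ≤ d`), where
`∑ i ≤ d, h_i x^(d - i) = ∑ j ≤ d, f_(j-1) (x - 1)^(d - j)` and `f_(j-1)` is the number of faces
with `j` vertices. -/
def hNumber (d : ℕ) (R : Finset (Finset (Fin n))) (i : ℕ) : ℤ :=
  (∑ j ∈ range (d + 1), (((R.filter fun G : Finset (Fin n) => G.card = j).card : ℕ) : ℤ[X]) *
    (X - 1) ^ (d - j)).coeff (d - i)

end

end Pool.Agent.TSI
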