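import Pool.Agent.Lib_helper3.TSI.Defs
import Pool.Agent.Lib_helper41.Assembly

/-!
# Positivity of the relative h-number, from `RelH.positivity_main`
-/

set_option autoImplicit false

namespace Pool.Agent.TSI

open Finset Polynomial

variable {d n : ℕ}

theorem hNumber_eq (R : Finset (Finset (Fin n))) {i : ℕ} (hi : i ≤ d) :
    hNumber d R i = ∑ k ∈ range (i + 1), (-1 : ℤ) ^ (i - k) *
      ((Nat.choose (d - k) (i - k) : ℕ) : ℤ) * ((R.filter (fun G => G.card = k)).card : ℤ) := by
  unfold hNumber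
  rw [Polynomial.finsetSum_coeff]
  have h1 : ∀ j ∈ range (d + 1),
      ((((R.filter fun G : Finset (Fin n) => G.card = j).card : ℕ) : ℤ[X]) *
        (X - 1) ^ (d - j)).coeff (d - i) =
      if j ∈ range (i + 1) then (-1 : ℤ) ^ (i - j) *
      ((Nat.choose (d - j) (i - j) : ℕ) : ℤ) * ((R.filter (fun G => G.card = j)).card : ℤ)
      else 0 := by
    intro j hj
    rw [mem_range] at hj
    have h2 : (X - 1 : ℤ[X]) = X + C (-1) := by rw [C_neg, C_1]; ring
    rw [h2, ← C_eq_natCast, coeff_C_mul, Polynomial.coeff_X_add_C_pow]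
    by_cases h3 : j ∈ range (i + 1)
    · rw [if_pos h3]
      rw [mem_range] at h3
      have h4 : d - j - (d - i) = i - j := by omega
      have h5 : (d - j).choose (d - i) = (d - j).choose (i - j) := by
        rw [← Nat.choose_symm (show d - i ≤ d - j by omega), h4]
      rw [h4, h5]
      ring
    · rw [if_neg h3]
      rw [mem_range] at h3
      rw [Nat.choose_eq_zero_of_lt (by omega)]
      simp
  rw [Finset.sum_congr rfl h1, Finset.sum_ite_mem]
  have h6 : range (d + 1) ∩ range (i + 1) = range (i + 1) := by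
    ext j
    simp only [mem_inter, mem_range]
    omega
  rw [h6]

theorem mem_facetComplex (S W : Finset (Fin d)) : W ∉ facetComplex S ↔ S ⊆ W := by
  unfold facetComplex
  rw [mem_filter]
  constructor
  · intro h v hv
    by_contra h2
    apply h
    refine ⟨mem_univ _, v, hv, fun w hw => ?_⟩
    rw [mem_sdiff, mem_singleton]
    exact ⟨mem_univ _, fun h3 => h2 (h3 ▸ hw)⟩
  · rintro h ⟨-, v, hv, h2⟩
    have := h2 (h hv)
    rw [mem_sdiff, mem_singleton] at this
    exact this.2 rfl

theorem main (Γ : Finset (Finset (Fin n))) (σ : Finset (Fin n) → Finset (Fin d))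
    (h : IsTopSubdivision Γ σ) (S : Finset (Fin d)) (hS : S.Nonempty) :
    0 < hNumber d (relComplex Γ σ (facetComplex S)) S.card := by
  have hSd : S.card ≤ d := by simpa using Finset.card_le_univ S
  rw [hNumber_eq _ hSd]
  have hdown : ∀ G ∈ Γ, ∀ H : Finset (Fin n), H ⊆ G → H ∈ Γ := fun G hG H hH =>
    h.isComplex.2 G hG H hH
  have hσ0 : σ ∅ = ∅ := (h.carrier_empty ∅ h.isComplex.1).2 rfl
  have hmono : ∀ G ∈ Γ, ∀ H : Finset (Fin n), H ⊆ G → σ H ⊆ σ G := by
    intro G hG H hH
    have h1 := (h.restr_isComplex (σ G)).2 G (mem_filter.2 ⟨hG, subset_rfl⟩) H hH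
    exact (mem_filter.1 h1).2
  have htop : BallCM.TopHyp d n Γ σ := by
    intro F hF
    obtain ⟨φ, hφ⟩ := h.isBall F hF
    have e : {x : Fin n → ℝ | (∀ j, 0 ≤ x j) ∧ ∑ j, x j = 1 ∧
        ∃ G ∈ Γ, σ G ⊆ F ∧ ∀ j, x j ≠ 0 → j ∈ G} = Realization (restr Γ σ F) := by
      ext x
      simp only [Realization, restr, Set.mem_ofPred_eq, mem_filter]
      constructor
      · rintro ⟨h0, hs, G, h1, h2, h3⟩
        exact ⟨h0, hs, G, ⟨h1, h2⟩, h3⟩
      · rintro ⟨h0, hs, G, ⟨h1, h2⟩, h3⟩
        exact ⟨h0, hs, G, h1, h2, h3⟩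
    refine ⟨(Homeomorph.setCongr e).trans φ, fun G hG hGn hGF => ?_⟩
    refine (hφ G (mem_filter.2 ⟨hG, hGF⟩) hGn).trans ?_
    constructor
    · intro h4 y hy
      exact h4 ((Homeomorph.setCongr e) y) hy
    · intro h4 y hy
      have h5 := h4 ((Homeomorph.setCongr e).symm y) hy
      simpa using h5
  have hmain := RelH.positivity_main hdown hσ0 hmono htop S (card_pos.2 hS)
  refine lt_of_lt_of_eq hmain (Finset.sum_congr rfl fun k _ => ?_)
  congr 3
  unfold relComplex
  rw [filter_filter]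
  refine Finset.filter_congr fun G _ => ?_
  rw [mem_facetComplex, and_comm]

end Pool.Agent.TSI
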